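import Pool.Agent.H47.Nr.Sd
import Pool.Agent.H61.Rz.PD0b

/-! # generated: difference check, A, pD0b -/

set_option autoImplicit false
set_option maxRecDepth 100000

namespace Pool.H61.Rh

open Pool.H47.Kc Pool.H47.K3

theorem nrm_A0b_c0 : normV ⟨3, 1, 1, 1, 498⟩ sA0E pD0b ⟨44, 7, 8⟩ nrE ⟨3, 0, 0, 0, 9, 1, 1, 1⟩ = true := by
  decide +kernel

theorem nrm_A0b_c1 : normV ⟨3, 3, 1, 1, 498⟩ sA0E pD0b ⟨44, 7, 8⟩ nrE ⟨3, 0, 0, 0, 9, 1, 1, 1⟩ = true := by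
  decide +kernel

theorem nrm_A0b_c2 : normV ⟨3, 5, 1, 1, 499⟩ sA0E pD0b ⟨44, 7, 8⟩ nrE ⟨3, 0, 0, 0, 9, 1, 1, 1⟩ = true := by
  decide +kernel

theorem nrm_A0b_c3 : normV ⟨3, 7, 1, 1, 500⟩ sA0E pD0b ⟨44, 7, 8⟩ nrE ⟨3, 0, 0, 0, 9, 1, 1, 1⟩ = true := by
  decide +kernel

theorem nrm_A0b {th x y : ℝ} (h0 : 0 ≤ th) (h1 : th ≤ 1) (hx : |x| ≤ 9 / 8)
    (hy : |y| ≤ 1) {b : ℕ → ℝ} (hb : EnclF sA0E th b) :
    |pD0b.val (realAlg b x y) 0| ≤ 12 / 2 ^ 20 ∧ |pD0b.val (realAlg b x y) 1| ≤ 106 / 25 / 2 ^ 18 ∧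
      |pD0b.val (realAlg b x y) 2| ≤ 106 / 25 / 2 ^ 18 := by
  have hx2 : |x| * 2 ^ 3 ≤ ((9 : ℕ) : ℝ) := by
    push_cast
    linarith
  have hy2 : |y| * 2 ^ 0 ≤ ((1 : ℕ) : ℝ) := by
    push_cast
    linarith
  rcases le_total (th * 2 ^ 3) 2 with h | h
  · exact nr_E nrm_A0b_c0 (nr_mem 3 1 498 3 0 9 1 (by push_cast; linarith) (by push_cast; linarith) hx2 hy2) hb
  have h2 := h
  clear h
  rcases le_total (th * 2 ^ 3) 4 with h | h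
  · exact nr_E nrm_A0b_c1 (nr_mem 3 3 498 3 0 9 1 (by push_cast; linarith) (by push_cast; linarith) hx2 hy2) hb
  have h3 := h
  clear h
  rcases le_total (th * 2 ^ 3) 6 with h | h
  · exact nr_E nrm_A0b_c2 (nr_mem 3 5 499 3 0 9 1 (by push_cast; linarith) (by push_cast; linarith) hx2 hy2) hb
  have h4 := h
  clear h
  exact nr_E nrm_A0b_c3 (nr_mem 3 7 500 3 0 9 1 (by push_cast; linarith) (by push_cast; linarith) hx2 hy2) hb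

end Pool.H61.Rh
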