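import Pool.Agent.H47.Nr.Sd
import Pool.Agent.H61.Rz.PDR2

/-! # generated: difference check, A, pDR2 -/

set_option autoImplicit false
set_option maxRecDepth 100000

namespace Pool.H61.Rh

open Pool.H47.Kc Pool.H47.K3

theorem nrm_AR2_c0 : normV ⟨4, 1, 1, 1, 518⟩ sA2R pDR2 ⟨40, 7, 7⟩ nrR ⟨3, 3, 0, 0, 9, 9, 1, 1⟩ = true := by
  decide +kernel

theorem nrm_AR2_c1 : normV ⟨4, 3, 1, 1, 518⟩ sA2R pDR2 ⟨40, 7, 7⟩ nrR ⟨3, 3, 0, 0, 9, 9, 1, 1⟩ = true := by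
  decide +kernel

theorem nrm_AR2_c2 : normV ⟨3, 3, 1, 1, 479⟩ sA2R pDR2 ⟨40, 7, 7⟩ nrR ⟨3, 3, 0, 0, 9, 9, 1, 1⟩ = true := by
  decide +kernel

theorem nrm_AR2_c3 : normV ⟨3, 5, 1, 1, 480⟩ sA2R pDR2 ⟨40, 7, 7⟩ nrR ⟨3, 3, 0, 0, 9, 9, 1, 1⟩ = true := by
  decide +kernel

theorem nrm_AR2_c4 : normV ⟨4, 13, 1, 1, 519⟩ sA2R pDR2 ⟨40, 7, 7⟩ nrR ⟨3, 3, 0, 0, 9, 9, 1, 1⟩ = true := by
  decide +kernel

theorem nrm_AR2_c5 : normV ⟨4, 15, 1, 1, 519⟩ sA2R pDR2 ⟨40, 7, 7⟩ nrR ⟨3, 3, 0, 0, 9, 9, 1, 1⟩ = true := by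
  decide +kernel

theorem nrm_AR2 {th x y : ℝ} (h0 : 0 ≤ th) (h1 : th ≤ 1) (hx : |x| ≤ 9 / 8)
    (hy : |y| ≤ 9 / 8) {b : ℕ → ℝ} (hb : EnclF sA2R th b) :
    |pDR2.val (realAlg b x y) 0| ≤ 1 / 2 ^ 14 ∧ |pDR2.val (realAlg b x y) 1| ≤ 707 / 1000 / 2 ^ 13 ∧
      |pDR2.val (realAlg b x y) 2| ≤ 707 / 1000 / 2 ^ 13 ∧ |pDR2.val (realAlg b x y) 3| ≤ 1 / 2 ^ 16 := by
  have hx2 : |x| * 2 ^ 3 ≤ ((9 : ℕ) : ℝ) := by
    push_cast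
    linarith
  have hy2 : |y| * 2 ^ 3 ≤ ((9 : ℕ) : ℝ) := by
    push_cast
    linarith
  rcases le_total (th * 2 ^ 4) 2 with h | h
  · exact nr_R nrm_AR2_c0 (nr_mem 4 1 518 3 3 9 9 (by push_cast; linarith) (by push_cast; linarith) hx2 hy2) hb
  have h2 := h
  clear h
  rcases le_total (th * 2 ^ 4) 4 with h | h
  · exact nr_R nrm_AR2_c1 (nr_mem 4 3 518 3 3 9 9 (by push_cast; linarith) (by push_cast; linarith) hx2 hy2) hb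
  have h3 := h
  clear h
  rcases le_total (th * 2 ^ 3) 4 with h | h
  · exact nr_R nrm_AR2_c2 (nr_mem 3 3 479 3 3 9 9 (by push_cast; linarith) (by push_cast; linarith) hx2 hy2) hb
  have h4 := h
  clear h
  rcases le_total (th * 2 ^ 3) 6 with h | h
  · exact nr_R nrm_AR2_c3 (nr_mem 3 5 480 3 3 9 9 (by push_cast; linarith) (by push_cast; linarith) hx2 hy2) hb
  have h5 := h
  clear h
  rcases le_total (th * 2 ^ 4) 14 with h | h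
  · exact nr_R nrm_AR2_c4 (nr_mem 4 13 519 3 3 9 9 (by push_cast; linarith) (by push_cast; linarith) hx2 hy2) hb
  have h6 := h
  clear h
  exact nr_R nrm_AR2_c5 (nr_mem 4 15 519 3 3 9 9 (by push_cast; linarith) (by push_cast; linarith) hx2 hy2) hb

end Pool.H61.Rh
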