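import Pool.Agent.H47.K3.Chk
import Pool.Agent.H61.Rz.SyA
import Pool.Agent.H61.Rz.SyB
import Pool.Agent.H81.Lv.LA0E
import Pool.Agent.H81.Lv.LA1E
import Pool.Agent.H81.Lv.LA2E
import Pool.Agent.H81.Lv.LA0R
import Pool.Agent.H81.Lv.LA1R
import Pool.Agent.H81.Lv.LA2R
import Pool.Agent.H81.Lv.LB0E
import Pool.Agent.H81.Lv.LB1E
import Pool.Agent.H81.Lv.LB2E
import Pool.Agent.H81.Lv.LB0R
import Pool.Agent.H81.Lv.LB1R
import Pool.Agent.H81.Lv.LB2R

/-! # Sd: symbol functions of the difference programs, boxes -/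

set_option autoImplicit false

namespace Pool.H61.Rh

open Pool.H47.Kc Pool.H47.K3

noncomputable def sA0E (i : Nat) : Sym := cond (Nat.blt i 81) (SyA i) (LA0E (Nat.sub i 81))
noncomputable def sA1E (i : Nat) : Sym := cond (Nat.blt i 81) (SyA i) (LA1E (Nat.sub i 81))
noncomputable def sA2E (i : Nat) : Sym := cond (Nat.blt i 81) (SyA i) (LA2E (Nat.sub i 81))
noncomputable def sA0R (i : Nat) : Sym := cond (Nat.blt i 81) (SyA i) (LA0R (Nat.sub i 81))
noncomputable def sA1R (i : Nat) : Sym := cond (Nat.blt i 81) (SyA i) (LA1R (Nat.sub i 81))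
noncomputable def sA2R (i : Nat) : Sym := cond (Nat.blt i 81) (SyA i) (LA2R (Nat.sub i 81))
noncomputable def sB0E (i : Nat) : Sym := cond (Nat.blt i 81) (SyB i) (LB0E (Nat.sub i 81))
noncomputable def sB1E (i : Nat) : Sym := cond (Nat.blt i 81) (SyB i) (LB1E (Nat.sub i 81))
noncomputable def sB2E (i : Nat) : Sym := cond (Nat.blt i 81) (SyB i) (LB2E (Nat.sub i 81))
noncomputable def sB0R (i : Nat) : Sym := cond (Nat.blt i 81) (SyB i) (LB0R (Nat.sub i 81))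
noncomputable def sB1R (i : Nat) : Sym := cond (Nat.blt i 81) (SyB i) (LB1R (Nat.sub i 81))
noncomputable def sB2R (i : Nat) : Sym := cond (Nat.blt i 81) (SyB i) (LB2R (Nat.sub i 81))

/-- box `(c-1)/2^e ≤ θ ≤ (c+1)/2^e`, `|x| ≤ sx/2^eX`, `|y| ≤ sy/2^eY` -/
theorem nr_mem (e c b eX eY sx sy : ℕ) {th x y : ℝ} (h1 : (c : ℝ) - 1 ≤ th * 2 ^ e)
    (h2 : th * 2 ^ e ≤ (c : ℝ) + 1) (hx : |x| * 2 ^ eX ≤ sx) (hy : |y| * 2 ^ eY ≤ sy) :
    (zz ⟨e, c, 1, 1, b⟩ ⟨eX, eY, 0, 0, sx, sy, 1, 1⟩).Mem th x y := by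
  have hp : ∀ n : ℕ, |(2 : ℝ) ^ n| = 2 ^ n := fun n => abs_of_pos (by positivity)
  refine ⟨?_, ?_, ?_⟩
  · show |th * 2 ^ e - (c : ℝ)| ≤ ((1 : ℕ) : ℝ) * ((1 : ℕ) : ℝ)
    rw [Nat.cast_one, one_mul, abs_le]
    constructor <;> linarith
  · show |x * 2 ^ eX - ((0 : ℕ) : ℝ)| ≤ (sx : ℝ) * ((1 : ℕ) : ℝ)
    rw [Nat.cast_zero, sub_zero, Nat.cast_one, mul_one, abs_mul, hp]
    exact hx
  · show |y * 2 ^ eY - ((0 : ℕ) : ℝ)| ≤ (sy : ℝ) * ((1 : ℕ) : ℝ)
    rw [Nat.cast_zero, sub_zero, Nat.cast_one, mul_one, abs_mul, hp]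
    exact hy

/-- bounds of the outputs of the `E` group -/
def nrE : List (ℕ × ℕ) := [(0, 13194139533312), (1, 18647717207080), (2, 18647717207080)]

/-- bounds of the outputs of the `R` group -/
def nrR : List (ℕ × ℕ) :=
  [(0, 70368744177664), (1, 99501404267216), (2, 99501404267216), (3, 17592186044416)]

theorem nr_E {U : U3} {S : ℕ → Sym} {Q : Prg} {g : Dg} {V : V3} (h : normV U S Q g nrE V = true)
    {th x y : ℝ} (hz : (zz U V).Mem th x y) {b : ℕ → ℝ} (hb : EnclF S th b) :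
    |Q.val (realAlg b x y) 0| ≤ 12 / 2 ^ 20 ∧ |Q.val (realAlg b x y) 1| ≤ 106 / 25 / 2 ^ 18 ∧
      |Q.val (realAlg b x y) 2| ≤ 106 / 25 / 2 ^ 18 := by
  have h0 := normV_sound U S Q g nrE V h th x y hz b hb (0, 13194139533312) (by simp [nrE])
  have h1 := normV_sound U S Q g nrE V h th x y hz b hb (1, 18647717207080) (by simp [nrE])
  have h2 := normV_sound U S Q g nrE V h th x y hz b hb (2, 18647717207080) (by simp [nrE])
  refine ⟨h0.trans (by norm_num), h1.trans (by norm_num), h2.trans (by norm_num)⟩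

theorem nr_R {U : U3} {S : ℕ → Sym} {Q : Prg} {g : Dg} {V : V3} (h : normV U S Q g nrR V = true)
    {th x y : ℝ} (hz : (zz U V).Mem th x y) {b : ℕ → ℝ} (hb : EnclF S th b) :
    |Q.val (realAlg b x y) 0| ≤ 1 / 2 ^ 14 ∧ |Q.val (realAlg b x y) 1| ≤ 707 / 1000 / 2 ^ 13 ∧
      |Q.val (realAlg b x y) 2| ≤ 707 / 1000 / 2 ^ 13 ∧ |Q.val (realAlg b x y) 3| ≤ 1 / 2 ^ 16 := by
  have h0 := normV_sound U S Q g nrR V h th x y hz b hb (0, 70368744177664) (by simp [nrR])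
  have h1 := normV_sound U S Q g nrR V h th x y hz b hb (1, 99501404267216) (by simp [nrR])
  have h2 := normV_sound U S Q g nrR V h th x y hz b hb (2, 99501404267216) (by simp [nrR])
  have h3 := normV_sound U S Q g nrR V h th x y hz b hb (3, 17592186044416) (by simp [nrR])
  refine ⟨h0.trans (by norm_num), h1.trans (by norm_num), h2.trans (by norm_num),
    h3.trans (by norm_num)⟩

end Pool.H61.Rh
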